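import Pool.Agent.H.MP_32da07_an.A

set_option autoImplicit false
open Set Metric Filter Topology
open scoped ENNReal

namespace Pool.Agent.Results.MP_32da07_an.No

abbrev E := EuclideanSpace ℂ (Fin 3)

noncomputable def lempert (D : Set E) (z w : E) : ℝ≥0∞ :=
  ⨅ (f : ℂ → E) (_ : DifferentiableOn ℂ f (ball 0 1)) (_ : MapsTo f (ball 0 1) D) (a : ℂ) (b : ℂ)
    (_ : ‖a‖ < 1) (_ : ‖b‖ < 1) (_ : f a = z) (_ : f b = w),
    ENNReal.ofReal (Real.artanh ‖(a - b) / (1 - (starRingEnd ℂ) a * b)‖)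

noncomputable def kob (D : Set E) (z w : E) : ℝ≥0∞ :=
  ⨅ (n : ℕ) (x : ℕ → E) (_ : x 0 = z) (_ : x (n + 1) = w),
    ∑ i ∈ Finset.range (n + 1), lempert D (x i) (x (i + 1))

def HolConvex (D : Set E) : Prop :=
  ∀ K ⊆ D, IsCompact K → IsCompact {v ∈ D | ∀ f : E → ℂ,
    DifferentiableOn ℂ f D → ∀ M : ℝ, (∀ w ∈ K, ‖f w‖ ≤ M) → ‖f v‖ ≤ M}

def Approach (D : Set E) (z₀ ζ : E) (z : ℕ → E) : Prop :=
  ζ ∈ frontier D ∧ (∀ m, z m ∈ D ∧ kob D z₀ (z m) ≠ ⊤) ∧ Tendsto z atTop (𝓝 ζ)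

theorem result : ∃ (D : Set E) (z₀ : E),
    IsOpen D ∧ IsConnected D ∧ Bornology.IsBounded D ∧
    (∀ v ∈ D, ∀ (θ : Fin 3 → ℝ) (w : E),
      (∀ j, w j = Complex.exp (θ j * Complex.I) * v j) → w ∈ D) ∧ HolConvex D ∧ z₀ ∈ D ∧
    (∃ ζ z, Approach D z₀ ζ z ∧ (∀ j, ζ j = 0 → ∃ v ∈ D, v j = 0) ∧
      Tendsto (fun m => (kob D z₀ (z m)).toReal + 1 / 2 * Real.log (infDist (z m) (frontier D)))
        atTop atBot) ∧
    (∃ ζ z, Approach D z₀ ζ z ∧ (∃ j, ζ j = 0 ∧ ∀ v ∈ D, v j ≠ 0) ∧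
      Tendsto (fun m => (kob D z₀ (z m)).toReal -
        1 / 2 * Real.log (-Real.log (infDist (z m) (frontier D)))) atTop atBot) := by
  open Pool.Agent.H.MP_32da07_an in
  have k1 := kob_le (φ := fun _ => φ2 0) (differentiableOn_const _) fun _ _ => φ2_re 0 (by simp)
  have k2 := kob_le φ2_diff φ2_re
  have m0 : (!₂[Complex.exp (φ2 0), 0, 0] : E) ∈ D := by simpa [s] using (k1 0).1
  refine ⟨D, !₂[Complex.exp (φ2 0), 0, 0], D_open, D_conn, D_bdd, fun v hv θ w hw => ?_, hull, m0,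
    ⟨_, _, ⟨front (fun m => (k1 m).1) (tend tendsto_const_nhds), fun m => ⟨(k1 m).1,
      ne_top_of_le_ne_top ENNReal.ofReal_ne_top (k1 m).2.1⟩, tend tendsto_const_nhds⟩,
      fun j hj => ⟨_, m0, ?_⟩,
      tendsto_atBot_mono (fun m => (fin m (k1 m).2.1 (k1 m).2.2.1 (k1 m).2.2.2).1) lim0⟩,
    ⟨_, _, ⟨front (fun m => (k2 m).1) (tend φ2_tend), fun m => ⟨(k2 m).1,
      ne_top_of_le_ne_top ENNReal.ofReal_ne_top (k2 m).2.1⟩, tend φ2_tend⟩,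
      ⟨0, by simp, fun v hv => hv.1⟩,
      tendsto_atBot_mono (fun m => (fin m (k2 m).2.1 (k2 m).2.2.1 (k2 m).2.2.2).2) lim0⟩⟩
  · have h : ∀ j, ‖w j‖ = ‖v j‖ := fun j => by
      rw [hw, norm_mul, Complex.norm_exp_ofReal_mul_I, one_mul]
    exact ⟨norm_ne_zero_iff.1 (h 0 ▸ norm_ne_zero_iff.2 hv.1), h 0 ▸ hv.2.1,
      D0_mono hv.2.2 (h 1).le (h 2).le⟩
  · fin_cases j <;> simp_all

end Pool.Agent.Results.MP_32da07_an.No
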